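import Mathlib

set_option autoImplicit false

open Filter Topology
open scoped ENNReal

universe u

namespace Pool.Agent.Results.MP_714461_an.NowhereGateaux

/-- the kink -/
noncomputable def g (ε t : ℝ) : ℝ := if t < 0 then (1 + ε) * t else t

/-- the inverse of the kink -/
noncomputable def gi (ε t : ℝ) : ℝ := if t < 0 then t / (1 + ε) else t

theorem gi_g {ε : ℝ} (hε : 0 < ε) (t : ℝ) : gi ε (g ε t) = t := by
  unfold g gi
  have h1 : (0 : ℝ) < 1 + ε := by linarith
  by_cases ht : t < 0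
  · have : (1 + ε) * t < 0 := mul_neg_of_pos_of_neg h1 ht
    simp only [ht, if_true, this]
    field_simp
  · simp [ht]

theorem g_gi {ε : ℝ} (hε : 0 < ε) (t : ℝ) : g ε (gi ε t) = t := by
  unfold g gi
  have h1 : (0 : ℝ) < 1 + ε := by linarith
  by_cases ht : t < 0
  · have : t / (1 + ε) < 0 := div_neg_of_neg_of_pos ht h1
    simp only [ht, if_true, this]
    field_simp
  · simp [ht]

theorem g_lower {ε : ℝ} (hε : 0 < ε) (s t : ℝ) : |s - t| ≤ |g ε s - g ε t| := by
  have key : ∀ s t : ℝ, s ≤ t → |s - t| ≤ |g ε s - g ε t| := by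
    intro s t hst
    have h2 : t - s ≤ g ε t - g ε s := by
      unfold g
      split_ifs <;> nlinarith
    rw [abs_sub_comm, abs_of_nonneg (by linarith), abs_sub_comm,
      abs_of_nonneg (by linarith)]
    exact h2
  rcases le_total s t with h | h
  · exact key s t h
  · rw [abs_sub_comm s t, abs_sub_comm (g ε s)]
    exact key t s h

theorem g_upper {ε : ℝ} (hε : 0 < ε) (s t : ℝ) : |g ε s - g ε t| ≤ (1 + ε) * |s - t| := by
  have key : ∀ s t : ℝ, s ≤ t → |g ε s - g ε t| ≤ (1 + ε) * |s - t| := by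
    intro s t hst
    have h1 : 0 ≤ g ε t - g ε s := by
      unfold g
      split_ifs <;> nlinarith
    have h2 : g ε t - g ε s ≤ (1 + ε) * (t - s) := by
      unfold g
      split_ifs <;> nlinarith
    rw [abs_sub_comm, abs_of_nonneg h1, abs_sub_comm, abs_of_nonneg (by linarith)]
    exact h2
  rcases le_total s t with h | h
  · exact key s t h
  · rw [abs_sub_comm s t, abs_sub_comm (g ε s)]
    exact key t s h

theorem g_zero (ε : ℝ) : g ε 0 = 0 := by simp [g]
theorem gi_zero (ε : ℝ) : gi ε 0 = 0 := by simp [gi]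

/-- the sequence space -/
abbrev L (ι : Type*) := lp (fun _ : ι => ℝ) 2

theorem mem_of_le {ι : Type*} (x : L ι) (y : ι → ℝ) (C : ℝ) (h : ∀ i, |y i| ≤ C * |x i|) :
    Memℓp y 2 := by
  have hx := lp.memℓp x
  rw [memℓp_gen_iff (by norm_num)] at hx ⊢
  refine Summable.of_nonneg_of_le (fun i => by positivity) (fun i => ?_) (hx.mul_left (|C| ^ 2))
  simp only [Real.norm_eq_abs, ENNReal.toReal_ofNat, Real.rpow_ofNat]
  rw [← mul_pow]
  refine pow_le_pow_left₀ (abs_nonneg _) ?_ 2
  exact (h i).trans (mul_le_mul_of_nonneg_right (le_abs_self C) (abs_nonneg _))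

theorem norm_le_of {ι : Type*} (x y : L ι) (C : ℝ) (hC : 0 ≤ C) (h : ∀ i, |y i| ≤ C * |x i|) :
    ‖y‖ ≤ C * ‖x‖ := by
  have hx := lp.norm_rpow_eq_tsum (p := 2) (by norm_num) x
  have hy := lp.norm_rpow_eq_tsum (p := 2) (by norm_num) y
  simp only [Real.norm_eq_abs, ENNReal.toReal_ofNat, Real.rpow_ofNat] at hx hy
  have sx : Summable fun i => |x i| ^ 2 := by
    have := lp.memℓp x
    rw [memℓp_gen_iff (by norm_num)] at this
    simpa using this
  have sy : Summable fun i => |y i| ^ 2 := by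
    have := lp.memℓp y
    rw [memℓp_gen_iff (by norm_num)] at this
    simpa using this
  have h2 : ‖y‖ ^ 2 ≤ (C * ‖x‖) ^ 2 := by
    rw [mul_pow, hx, hy, ← tsum_mul_left]
    refine Summable.tsum_le_tsum (fun i => ?_) sy (sx.mul_left _)
    rw [← mul_pow]
    exact pow_le_pow_left₀ (abs_nonneg _) (h i) 2
  exact le_of_sq_le_sq h2 (by positivity)

/-- the map on the sequence space -/
noncomputable def Phi {ι : Type*} {ε : ℝ} (hε : 0 < ε) (x : L ι) : L ι :=
  ⟨fun i => g ε (x i), mem_of_le x _ (1 + ε) fun i => by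
    have := g_upper hε (x i) 0
    simpa [g_zero] using this⟩

/-- the inverse map on the sequence space -/
noncomputable def Psi {ι : Type*} {ε : ℝ} (hε : 0 < ε) (x : L ι) : L ι :=
  ⟨fun i => gi ε (x i), mem_of_le x _ 1 fun i => by
    have := g_lower hε (gi ε (x i)) 0
    rw [g_gi hε] at this
    simpa [g_zero] using this⟩

@[simp] theorem Phi_apply {ι : Type*} {ε : ℝ} (hε : 0 < ε) (x : L ι) (i : ι) :
    Phi hε x i = g ε (x i) := rfl
@[simp] theorem Psi_apply {ι : Type*} {ε : ℝ} (hε : 0 < ε) (x : L ι) (i : ι) :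
    Psi hε x i = gi ε (x i) := rfl

/-- the bijection of the sequence space -/
noncomputable def PhiE {ι : Type*} {ε : ℝ} (hε : 0 < ε) : L ι ≃ L ι where
  toFun := Phi hε
  invFun := Psi hε
  left_inv x := by
    ext i
    simp [gi_g hε]
  right_inv x := by
    ext i
    simp [g_gi hε]

theorem Phi_bounds {ι : Type*} {ε : ℝ} (hε : 0 < ε) (x y : L ι) :
    ‖x - y‖ ≤ ‖Phi hε x - Phi hε y‖ ∧ ‖Phi hε x - Phi hε y‖ ≤ (1 + ε) * ‖x - y‖ := by
  constructor
  · have := norm_le_of (Phi hε x - Phi hε y) (x - y) 1 zero_le_one (fun i => by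
      simpa using g_lower hε (x i) (y i))
    simpa using this
  · exact norm_le_of (x - y) (Phi hε x - Phi hε y) (1 + ε) (by linarith) (fun i => by
      simpa using g_upper hε (x i) (y i))

theorem exists_zero_coord {ι : Type*} (hι : Uncountable ι) (x : L ι) : ∃ i, x i = 0 := by
  by_contra hcon
  push Not at hcon
  have hs : Summable fun i => |x i| ^ 2 := by
    have := lp.memℓp x
    rw [memℓp_gen_iff (by norm_num)] at this
    simpa using this
  have h1 := hs.countable_support
  have h2 : Function.support (fun i => |x i| ^ 2) = Set.univ := by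
    ext i
    simp [hcon i]
  rw [h2, Set.countable_univ_iff] at h1
  exact (not_countable_iff.2 hι) h1

theorem not_sep_L {ι : Type*} (hι : Uncountable ι) : ¬ TopologicalSpace.SeparableSpace (L ι) := by
  classical
  intro hsep
  let e : ι → L ι := fun i => lp.single 2 i (1 : ℝ)
  have hdist : ∀ i j, i ≠ j → 1 ≤ dist (e i) (e j) := by
    intro i j hij
    rw [dist_eq_norm]
    have h1 := lp.norm_apply_le_norm (p := 2) (by norm_num) (e i - e j) i
    have h2 : (e i - e j : L ι) i = 1 := by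
      simp [e, hij]
    rw [h2] at h1
    simpa using h1
  have h1 : (Set.univ : Set ι).PairwiseDisjoint fun i => Metric.ball (e i) (1 / 2) := by
    intro i _ j _ hij
    refine Metric.ball_disjoint_ball ?_
    have := hdist i j hij
    norm_num
    linarith
  have h2 := h1.countable_of_isOpen (fun i _ => Metric.isOpen_ball)
    (fun i _ => ⟨e i, Metric.mem_ball_self (by norm_num)⟩)
  rw [Set.countable_univ_iff] at h2
  exact (not_countable_iff.2 hι) h2

theorem uncountable_basis {H : Type u} [NormedAddCommGroup H] [InnerProductSpace ℝ H]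
    [CompleteSpace H] (hH : ¬ TopologicalSpace.SeparableSpace H) {ι : Type*}
    (b : HilbertBasis ι ℝ H) : Uncountable ι := by
  rw [← not_countable_iff]
  intro hc
  apply hH
  have h1 : TopologicalSpace.IsSeparable (Set.range b) := (Set.countable_range b).isSeparable
  have h2 := (h1.span (R := ℝ)).closure
  have h3 := b.dense_span
  rw [← Submodule.topologicalClosure_coe, h3] at h2
  exact TopologicalSpace.isSeparable_univ_iff.1 (by simpa using h2)

theorem not_differentiable {ι : Type*} (hι : Uncountable ι) {ε : ℝ} (hε : 0 < ε) (x : L ι) :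
    ∃ h : L ι, ¬ ∃ w : L ι,
      Tendsto (fun t : ℝ => t⁻¹ • (Phi hε (x + t • h) - Phi hε x)) (𝓝[≠] 0) (𝓝 w) := by
  classical
  obtain ⟨i, hi⟩ := exists_zero_coord hι x
  refine ⟨lp.single 2 i (1 : ℝ), ?_⟩
  rintro ⟨w, hw⟩
  -- evaluate at the coordinate i
  have hval : ∀ t : ℝ, (t⁻¹ • (Phi hε (x + t • (lp.single 2 i (1 : ℝ) : L ι)) - Phi hε x) : L ι) i
      = t⁻¹ * g ε t := by
    intro t
    change t⁻¹ * (g ε (x i + t * (lp.single 2 i (1 : ℝ) : L ι) i) - g ε (x i)) = _
    rw [lp.single_apply_self, hi]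
    simp [g_zero]
  have hcoord : Tendsto (fun t : ℝ => t⁻¹ * g ε t) (𝓝[≠] 0) (𝓝 (w i)) := by
    have hb : ∀ t : ℝ, |t⁻¹ * g ε t - w i| ≤
        ‖t⁻¹ • (Phi hε (x + t • (lp.single 2 i (1 : ℝ) : L ι)) - Phi hε x) - w‖ := by
      intro t
      have := lp.norm_apply_le_norm (p := 2) (by norm_num)
        (t⁻¹ • (Phi hε (x + t • (lp.single 2 i (1 : ℝ) : L ι)) - Phi hε x) - w) i
      rw [lp.coeFn_sub, Pi.sub_apply, hval t, Real.norm_eq_abs] at this
      exact this
    have h0 := (tendsto_iff_norm_sub_tendsto_zero.1 hw)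
    rw [tendsto_iff_norm_sub_tendsto_zero]
    exact squeeze_zero (fun t => norm_nonneg _) (fun t => by
      rw [Real.norm_eq_abs]; exact hb t) h0
  have hpos : Tendsto (fun t : ℝ => t⁻¹ * g ε t) (𝓝[>] 0) (𝓝 1) := by
    refine tendsto_const_nhds.congr' ?_
    filter_upwards [self_mem_nhdsWithin] with t ht
    have ht' : (0 : ℝ) < t := ht
    have : ¬ t < 0 := not_lt.2 ht'.le
    simp only [g, this, if_false]
    field_simp
  have hneg : Tendsto (fun t : ℝ => t⁻¹ * g ε t) (𝓝[<] 0) (𝓝 (1 + ε)) := by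
    refine tendsto_const_nhds.congr' ?_
    filter_upwards [self_mem_nhdsWithin] with t ht
    have ht' : t < (0 : ℝ) := ht
    simp only [g, ht', if_true]
    field_simp [ht'.ne]
  have hsub1 : (𝓝[>] (0 : ℝ)) ≤ 𝓝[≠] 0 :=
    nhdsWithin_mono _ (fun t (ht : 0 < t) => ht.ne')
  have hsub2 : (𝓝[<] (0 : ℝ)) ≤ 𝓝[≠] 0 :=
    nhdsWithin_mono _ (fun t (ht : t < 0) => ht.ne)
  have h1 : w i = 1 := tendsto_nhds_unique (hcoord.mono_left hsub1) hpos
  have h2 : w i = 1 + ε := tendsto_nhds_unique (hcoord.mono_left hsub2) hneg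
  linarith

/-- Nonseparable real Hilbert spaces exist; and on every nonseparable real Hilbert space `H` there
is, for every `ε > 0`, a bijection `φ` with
`‖x - y‖ ≤ ‖φ x - φ y‖ ≤ (1 + ε) ‖x - y‖` such that at every point `x` there is a direction `h` for
which `(φ (x + t h) - φ x) / t` has no limit as `t → 0`; in particular `φ` is Gateaux
differentiable at no point. -/
theorem result :
    (∃ (H : Type) (_ : NormedAddCommGroup H) (_ : InnerProductSpace ℝ H) (_ : CompleteSpace H),
      ¬ TopologicalSpace.SeparableSpace H) ∧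
    ∀ (H : Type u) [NormedAddCommGroup H] [InnerProductSpace ℝ H] [CompleteSpace H],
      ¬ TopologicalSpace.SeparableSpace H → ∀ ε : ℝ, 0 < ε →
      ∃ φ : H ≃ H,
        (∀ x y : H, ‖x - y‖ ≤ ‖φ x - φ y‖ ∧ ‖φ x - φ y‖ ≤ (1 + ε) * ‖x - y‖) ∧
        ∀ x : H, ∃ h : H, ¬ ∃ w : H,
          Tendsto (fun t : ℝ => t⁻¹ • (φ (x + t • h) - φ x)) (𝓝[≠] 0) (𝓝 w) := by
  refine ⟨⟨L ℝ, inferInstance, inferInstance, inferInstance, not_sep_L inferInstance⟩, ?_⟩
  intro H _ _ _ hH ε hε
  obtain ⟨s, b, -⟩ := exists_hilbertBasis ℝ H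
  have hι : Uncountable s := uncountable_basis hH b
  let r : H ≃ₗᵢ[ℝ] L s := b.repr
  refine ⟨(r.toEquiv.trans (PhiE hε)).trans r.toEquiv.symm, ?_, ?_⟩
  · intro x y
    have h := Phi_bounds hε (r x) (r y)
    have e1 : ‖r x - r y‖ = ‖x - y‖ := by rw [← map_sub, r.norm_map]
    have e2 : ‖r.symm (Phi hε (r x)) - r.symm (Phi hε (r y))‖ =
        ‖Phi hε (r x) - Phi hε (r y)‖ := by rw [← map_sub, r.symm.norm_map]
    rw [e1] at h
    change ‖x - y‖ ≤ ‖r.symm (Phi hε (r x)) - r.symm (Phi hε (r y))‖ ∧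
      ‖r.symm (Phi hε (r x)) - r.symm (Phi hε (r y))‖ ≤ (1 + ε) * ‖x - y‖
    rw [e2]
    exact h
  · intro x
    obtain ⟨h, hh⟩ := not_differentiable hι hε (r x)
    refine ⟨r.symm h, ?_⟩
    rintro ⟨w, hw⟩
    refine hh ⟨r w, ?_⟩
    have := (r.continuous.tendsto w).comp hw
    refine this.congr fun t => ?_
    change r (t⁻¹ • (r.symm (Phi hε (r (x + t • r.symm h))) - r.symm (Phi hε (r x)))) = _
    rw [map_smul, map_sub, r.apply_symm_apply, r.apply_symm_apply, map_add, map_smul,
      r.apply_symm_apply]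

end Pool.Agent.Results.MP_714461_an.NowhereGateaux
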